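import Mathlib

/-!
MP_8916ec_co.  Tropical rank equals dimension for finitely generated semimodules of functions on a
compact polyhedral space; on the real line the equality fails.
-/

namespace Pool.Agent.Results.MP_8916ec_co.RankEqDim

open Finset

/-! ### Definitions -/

section Defs

variable {Y : Type*} {l : ℕ}

/-- `f = min_{j ∈ J} (g_j + c_j)` pointwise. -/
def IsMinComb (g : Fin l → Y → ℝ) (J : Finset (Fin l)) (c : Fin l → ℝ) (f : Y → ℝ) : Prop :=
  ∀ y, (∀ j ∈ J, f y ≤ g j y + c j) ∧ ∃ j ∈ J, f y = g j y + c j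

/-- The finite-valued elements of the semimodule generated by `g_1, …, g_l`: tropical
combinations `min_{j ∈ J} (g_j + c_j)` (coefficients `∞` outside `J`). -/
def gen (g : Fin l → Y → ℝ) : Set (Y → ℝ) := {f | ∃ J c, IsMinComb g J c f}

/-- tropical dependence of `f_1, …, f_r` -/
def TropDependent {r : ℕ} (f : Fin r → Y → ℝ) : Prop :=
  ∃ c : Fin r → ℝ, ∀ y, ∃ i j, i ≠ j ∧ (∀ k, f i y + c i ≤ f k y + c k) ∧
    (∀ k, f j y + c j ≤ f k y + c k)

/-- `r` is the tropical rank of `M`: the largest `r` such that `M` contains `r` tropically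
independent elements -/
def IsTropRank (M : Set (Y → ℝ)) (r : ℕ) : Prop :=
  IsGreatest {r | ∃ f : Fin r → Y → ℝ, (∀ i, f i ∈ M) ∧ ¬ TropDependent f} r

/-- the fibre `Ψ⁻¹(f)` of `Ψ(c) = min_j (g_j + c_j)` -/
def fibre (g : Fin l → Y → ℝ) (f : Y → ℝ) : Set (Fin l → ℝ) := {c | IsMinComb g univ c f}

/-- the dimension of a subset of `ℝ^l` (finite union of polyhedra): largest dimension of a convex
subset -/
noncomputable def setDim (S : Set (Fin l → ℝ)) : ℕ :=
  sSup {n | ∃ C ⊆ S, Convex ℝ C ∧ n = Module.finrank ℝ (vectorSpan ℝ C)}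

/-- `dim(M) = max_f [l - dim Ψ⁻¹(f)]` -/
noncomputable def dimM (g : Fin l → Y → ℝ) : ℕ :=
  sSup {n | ∃ f ∈ gen g, n = l - setDim (fibre g f)}

/-- closed convex polyhedron in `ℝ^d` -/
def IsPolyhedron {d : ℕ} (S : Set (Fin d → ℝ)) : Prop :=
  ∃ (n : ℕ) (A : Fin n → Fin d → ℝ) (b : Fin n → ℝ), S = {x | ∀ i, ∑ k, A i k * x k ≤ b i}

/-- polyhedral subspace: finite union of closed convex polyhedra -/
def IsPolyhedralSubspace {d : ℕ} (Y : Set (Fin d → ℝ)) : Prop :=
  ∃ F : Set (Set (Fin d → ℝ)), F.Finite ∧ (∀ S ∈ F, IsPolyhedron S) ∧ Y = ⋃₀ F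

/-- piecewise linear function on `Y`: continuous, and affine on each member of a finite family of
polyhedra with union `Y` -/
def IsPL {d : ℕ} {Y : Set (Fin d → ℝ)} (f : Y → ℝ) : Prop :=
  Continuous f ∧ ∃ F : Set (Set (Fin d → ℝ)), F.Finite ∧ (∀ S ∈ F, IsPolyhedron S) ∧ Y = ⋃₀ F ∧
    ∀ S ∈ F, ∃ (a : Fin d → ℝ) (b : ℝ), ∀ y : Y, (y : Fin d → ℝ) ∈ S →
      f y = ∑ k, a k * (y : Fin d → ℝ) k + b

end Defs

/-! ### The alternative -/

section Alternative

variable {Y : Type*} [TopologicalSpace Y] [CompactSpace Y] [Nonempty Y]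

theorem alternative {r : ℕ} (hr : 2 ≤ r) (f : Fin r → Y → ℝ) (hf : ∀ i, Continuous (f i)) :
    (∃ w : Fin r → ℝ, ∀ y i, ∃ j, j ≠ i ∧ f j y + w j ≤ f i y + w i) ∨
    (∃ w : Fin r → ℝ, ∀ i, ∃ y, ∀ j, j ≠ i → f i y + w i < f j y + w j) := by
  classical
  have herase : ∀ i : Fin r, (univ.erase i).Nonempty := by
    intro i
    obtain ⟨j, hj⟩ : ∃ j : Fin r, j ≠ i := by
      by_cases h : i = ⟨0, by omega⟩
      · exact ⟨⟨1, by omega⟩, by rw [h]; simp⟩
      · exact ⟨⟨0, by omega⟩, fun h' => h h'.symm⟩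
    exact ⟨j, mem_erase.2 ⟨hj, mem_univ _⟩⟩
  -- bound
  obtain ⟨K, hK0, hK⟩ : ∃ K : ℝ, 0 ≤ K ∧ ∀ i j y, f j y - f i y ≤ K ∧ -K ≤ f j y - f i y := by
    have : ∀ i, ∃ C : ℝ, ∀ y, |f i y| ≤ C := by
      intro i
      obtain ⟨C, hC⟩ := isCompact_univ.exists_bound_of_continuousOn (hf i).continuousOn
      exact ⟨C, fun y => by simpa using hC y (Set.mem_univ _)⟩
    choose C hC using this
    have hCS : ∀ i y, |f i y| ≤ ∑ i, |C i| := by
      intro i y
      refine (hC i y).trans ((le_abs_self _).trans ?_)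
      exact single_le_sum (f := fun i => |C i|) (fun i _ => abs_nonneg _) (mem_univ i)
    refine ⟨2 * ∑ i, |C i|, by positivity, fun i j y => ?_⟩
    have h1 := abs_le.1 (hCS i y)
    have h2 := abs_le.1 (hCS j y)
    constructor <;> linarith [h1.1, h1.2, h2.1, h2.2]
  let φ : Fin r → (Fin r → ℝ) → Y → ℝ := fun i w y =>
    (univ.erase i).inf' (herase i) (fun j => w j + (f j y - f i y))
  have φle : ∀ i w y j, j ≠ i → φ i w y ≤ w j + (f j y - f i y) := by
    intro i w y j hj
    exact inf'_le _ (mem_erase.2 ⟨hj, mem_univ _⟩)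
  have φex : ∀ i w y, ∃ j, j ≠ i ∧ φ i w y = w j + (f j y - f i y) := by
    intro i w y
    obtain ⟨j, hj, h⟩ := exists_mem_eq_inf' (herase i) (fun j => w j + (f j y - f i y))
    exact ⟨j, (mem_erase.1 hj).1, h⟩
  have φcont : ∀ i w, Continuous (φ i w) := by
    intro i w
    apply Continuous.finset_inf'_apply
    intro j _
    exact continuous_const.add ((hf j).sub (hf i))
  have hmax : ∀ (w : Fin r → ℝ) i, ∃ y, ∀ y', φ i w y' ≤ φ i w y := by
    intro w i
    obtain ⟨y, _, hy⟩ := isCompact_univ.exists_isMaxOn Set.univ_nonempty (φcont i w).continuousOn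
    exact ⟨y, fun y' => hy (Set.mem_univ y')⟩
  choose ym hym using hmax
  let T : (Fin r → ℝ) → (Fin r → ℝ) := fun w i => φ i w (ym w i)
  have hT : ∀ w i y, φ i w y ≤ T w i := fun w i y => hym w i y
  have hTlip : ∀ w w' : Fin r → ℝ, ∀ i, T w i ≤ T w' i + dist w w' := by
    intro w w' i
    obtain ⟨j, hj, hje⟩ := φex i w' (ym w i)
    have h1 := φle i w (ym w i) j hj
    have h2 := hT w' i (ym w i)
    have h3 : w j - w' j ≤ dist w w' := (le_abs_self _).trans (by
      rw [← Real.dist_eq]; exact dist_le_pi_dist w w' j)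
    change φ i w (ym w i) ≤ _
    linarith
  have hTdist : ∀ w w', dist (T w) (T w') ≤ dist w w' := by
    intro w w'
    rw [dist_pi_le_iff dist_nonneg]
    intro i
    rw [Real.dist_eq, abs_le]
    have h1 := hTlip w w' i
    have h2 := hTlip w' w i
    rw [dist_comm w' w] at h2
    constructor <;> linarith
  -- fixed points of the discounted maps
  have hfix : ∀ α : ℝ, 0 < α → α < 1 → ∃ a : Fin r → ℝ, T (α • a) = a := by
    intro α h0 h1
    have hc : ContractingWith ⟨α, h0.le⟩ (fun w : Fin r → ℝ => T (α • w)) := by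
      refine ⟨by exact_mod_cast h1, LipschitzWith.of_dist_le_mul (fun w w' => ?_)⟩
      refine (hTdist _ _).trans ?_
      rw [dist_smul₀, Real.norm_of_nonneg h0.le]
      rfl
    exact ⟨_, hc.fixedPoint_isFixedPt⟩
  have hgood : ∀ w : Fin r → ℝ, (∀ i, T w i ≤ w i) →
      ∀ y i, ∃ j, j ≠ i ∧ f j y + w j ≤ f i y + w i := by
    intro w hw y i
    obtain ⟨j, hj, hje⟩ := φex i w y
    have := hT w i y
    have := hw i
    exact ⟨j, hj, by linarith⟩
  by_cases hA : ∃ α : ℝ, 0 < α ∧ α < 1 ∧ ∃ a : Fin r → ℝ, T (α • a) = a ∧ ∀ i, 0 < a i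
  · obtain ⟨α, h0, h1, a, ha, hpos⟩ := hA
    right
    refine ⟨α • a, fun i => ⟨ym (α • a) i, fun j hj => ?_⟩⟩
    have h2 := φle i (α • a) (ym (α • a) i) j hj
    have h3 : φ i (α • a) (ym (α • a) i) = a i := congrFun ha i
    have h4 : (α • a) i < a i := by
      change α * a i < a i
      nlinarith [hpos i]
    linarith
  by_cases hB : ∃ α : ℝ, 0 < α ∧ α < 1 ∧ ∃ a : Fin r → ℝ, T (α • a) = a ∧ ∀ i, a i ≤ 0
  · obtain ⟨α, h0, h1, a, ha, hneg⟩ := hB
    left
    refine ⟨α • a, hgood _ (fun i => ?_)⟩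
    rw [ha]
    change a i ≤ α * a i
    nlinarith [hneg i]
  push Not at hA hB
  left
  -- uniform bound
  have hbd : ∀ α : ℝ, 0 < α → α < 1 → ∀ a : Fin r → ℝ, T (α • a) = a → ∀ i, |a i| ≤ 2 * K := by
    intro α h0 h1 a ha
    obtain ⟨i1, hi1⟩ := hA α h0 h1 a ha
    obtain ⟨j1, hj1⟩ := hB α h0 h1 a ha
    have : Nonempty (Fin r) := ⟨i1⟩
    obtain ⟨i0, hi0⟩ := Finite.exists_min (α • a)
    have hb0 : (α • a) i0 ≤ 0 := (hi0 i1).trans (by
      change α * a i1 ≤ 0
      nlinarith)
    have ha0 : a i0 ≤ 0 := by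
      have : α * a i0 ≤ 0 := hb0
      by_contra hc
      push Not at hc
      nlinarith [mul_pos h0 hc]
    have hup : ∀ i, i ≠ i0 → a i ≤ (α • a) i0 + K := by
      intro i hi
      have e : φ i (α • a) (ym (α • a) i) = a i := congrFun ha i
      rw [← e]
      have := φle i (α • a) (ym (α • a) i) i0 (Ne.symm hi)
      have := (hK i i0 (ym (α • a) i)).1
      linarith
    have hlo : ∀ i, (α • a) i0 - K ≤ a i := by
      intro i
      have e : φ i (α • a) (ym (α • a) i) = a i := congrFun ha i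
      rw [← e]
      obtain ⟨j, hj, hje⟩ := φex i (α • a) (ym (α • a) i)
      rw [hje]
      have := (hK i j (ym (α • a) i)).2
      have := hi0 j
      linarith
    have hj1' : j1 ≠ i0 := by
      rintro rfl
      linarith
    have hβ : -K < (α • a) i0 := by
      have := hup j1 hj1'
      linarith
    intro i
    rw [abs_le]
    refine ⟨by linarith [hlo i], ?_⟩
    by_cases hi : i = i0
    · rw [hi]; linarith
    · linarith [hup i hi]
  have hTc : Continuous T := (LipschitzWith.of_dist_le_mul (K := 1) (fun w w' => by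
    simpa using hTdist w w')).continuous
  obtain ⟨w, hw, hmin⟩ := (isCompact_closedBall (0 : Fin r → ℝ) (2 * K)).exists_isMinOn
    ⟨0, by simp; exact hK0⟩ ((hTc.dist continuous_id).continuousOn)
  have hzero : dist (T w) w = 0 := by
    by_contra hne
    have hpos : 0 < dist (T w) w := lt_of_le_of_ne dist_nonneg (Ne.symm hne)
    obtain ⟨α, h0, h1, hα⟩ : ∃ α : ℝ, 0 < α ∧ α < 1 ∧ (1 - α) * (2 * K) < dist (T w) w := by
      set ε := dist (T w) w
      refine ⟨1 - min (1 / 2) (ε / (2 * (2 * K + 1))), ?_, ?_, ?_⟩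
      · have := min_le_left (1 / 2) (ε / (2 * (2 * K + 1)))
        linarith
      · have : 0 < min (1 / 2) (ε / (2 * (2 * K + 1))) := lt_min (by norm_num) (by positivity)
        linarith
      · have h := min_le_right (1 / 2) (ε / (2 * (2 * K + 1)))
        have h2 : (ε / (2 * (2 * K + 1))) * (2 * K) < ε := by
          rw [div_mul_eq_mul_div, div_lt_iff₀ (by positivity)]
          nlinarith
        have h3 : min (1 / 2) (ε / (2 * (2 * K + 1))) * (2 * K) ≤ (ε / (2 * (2 * K + 1))) * (2 * K) :=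
          mul_le_mul_of_nonneg_right h (by positivity)
        linarith
    obtain ⟨a, ha⟩ := hfix α h0 h1
    have hab := hbd α h0 h1 a ha
    have hn : ‖a‖ ≤ 2 * K := (pi_norm_le_iff_of_nonneg (by positivity)).2 hab
    have hin : α • a ∈ Metric.closedBall (0 : Fin r → ℝ) (2 * K) := by
      rw [mem_closedBall_zero_iff, norm_smul, Real.norm_of_nonneg h0.le]
      nlinarith [norm_nonneg a]
    have h4 : dist (T w) w ≤ dist (T (α • a)) (α • a) := hmin hin
    rw [ha] at h4
    have h5 : dist a (α • a) = (1 - α) * ‖a‖ := by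
      rw [dist_eq_norm]
      have : a - α • a = (1 - α) • a := by rw [sub_smul, one_smul]
      rw [this, norm_smul, Real.norm_of_nonneg (by linarith)]
    rw [h5] at h4
    have h6 : (1 - α) * ‖a‖ ≤ (1 - α) * (2 * K) := mul_le_mul_of_nonneg_left hn (by linarith)
    linarith
  have hTw : T w = w := dist_eq_zero.1 hzero
  exact ⟨w, hgood w (fun i => (congrFun hTw i).le)⟩

end Alternative

/-! ### Fibres -/

section Fibres

variable {Y : Type*} {l : ℕ}

/-- the subspace of vectors vanishing on `J` -/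
def van (J : Finset (Fin l)) : Submodule ℝ (Fin l → ℝ) where
  carrier := {v | ∀ j ∈ J, v j = 0}
  add_mem' := by
    intro a b ha hb j hj
    simp [ha j hj, hb j hj]
  zero_mem' := by intro j _; rfl
  smul_mem' := by
    intro c a ha j hj
    simp [ha j hj]

theorem finrank_van_le (J : Finset (Fin l)) : Module.finrank ℝ (van J) ≤ l - J.card := by
  let F : van J →ₗ[ℝ] ({j // j ∉ J} → ℝ) :=
    { toFun := fun v j => (v : Fin l → ℝ) j
      map_add' := fun _ _ => rfl
      map_smul' := fun _ _ => rfl }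
  have hF : Function.Injective F := by
    rintro ⟨a, ha⟩ ⟨b, hb⟩ h
    apply Subtype.ext
    funext j
    by_cases hj : j ∈ J
    · change a j = b j
      rw [ha j hj, hb j hj]
    · exact congrFun h ⟨j, hj⟩
  have h := LinearMap.finrank_le_finrank_of_injective hF
  rw [Module.finrank_fintype_fun_eq_card, Fintype.card_subtype_compl, Fintype.card_fin,
    Fintype.card_coe] at h
  exact h

theorem finrank_ge (J : Finset (Fin l)) (m : Fin l → ℝ) :
    l - J.card ≤ Module.finrank ℝ
      (vectorSpan ℝ {c : Fin l → ℝ | (∀ j ∈ J, c j = m j) ∧ ∀ j, m j ≤ c j}) := by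
  classical
  set C := {c : Fin l → ℝ | (∀ j ∈ J, c j = m j) ∧ ∀ j, m j ≤ c j} with hC
  have hm : m ∈ C := ⟨fun _ _ => rfl, fun _ => le_rfl⟩
  have hsingle : ∀ j, j ∉ J → ∀ t : ℝ, (Pi.single j t : Fin l → ℝ) ∈ vectorSpan ℝ C := by
    intro j hj t
    have h1 : m + Pi.single j 1 ∈ C := by
      refine ⟨fun k hk => ?_, fun k => ?_⟩
      · have : k ≠ j := fun h => hj (h ▸ hk)
        simp [this]
      · by_cases h : k = j
        · subst h; simp
        · simp [h]
    have h2 : (m + Pi.single j 1) -ᵥ m ∈ vectorSpan ℝ C := vsub_mem_vectorSpan ℝ h1 hm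
    have h3 : (m + Pi.single j 1 : Fin l → ℝ) -ᵥ m = Pi.single j 1 := by simp
    rw [h3] at h2
    have h4 : (Pi.single j t : Fin l → ℝ) = t • Pi.single j (1 : ℝ) := by
      rw [← Pi.single_smul]; simp
    rw [h4]
    exact Submodule.smul_mem _ _ h2
  let E : ({j // j ∉ J} → ℝ) →ₗ[ℝ] vectorSpan ℝ C :=
    { toFun := fun v => ⟨∑ j : {j // j ∉ J}, Pi.single (j : Fin l) (v j),
        Submodule.sum_mem _ (fun j _ => hsingle j j.2 _)⟩
      map_add' := by
        intro a b
        apply Subtype.ext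
        simp only [Pi.add_apply, Submodule.coe_add]
        rw [← Finset.sum_add_distrib]
        refine Finset.sum_congr rfl (fun j _ => ?_)
        exact Pi.single_add _ _ _
      map_smul' := by
        intro t a
        apply Subtype.ext
        simp only [Pi.smul_apply, Submodule.coe_smul, RingHom.id_apply]
        rw [Finset.smul_sum]
        refine Finset.sum_congr rfl (fun j _ => ?_)
        exact Pi.single_smul _ _ _ }
  have hE : Function.Injective E := by
    intro a b h
    funext j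
    have h1 := congrFun (congrArg Subtype.val h) (j : Fin l)
    have h2 : ∀ v : {j // j ∉ J} → ℝ,
        (∑ i : {j // j ∉ J}, (Pi.single (i : Fin l) (v i) : Fin l → ℝ)) (j : Fin l) = v j := by
      intro v
      rw [Finset.sum_apply, Finset.sum_eq_single j]
      · simp
      · intro i _ hij
        have : (j : Fin l) ≠ (i : Fin l) := fun h => hij (Subtype.ext h.symm)
        simp [this]
      · simp
    change (∑ i : {j // j ∉ J}, (Pi.single (i : Fin l) (a i) : Fin l → ℝ)) (j : Fin l) =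
      (∑ i : {j // j ∉ J}, (Pi.single (i : Fin l) (b i) : Fin l → ℝ)) (j : Fin l) at h1
    rw [h2, h2] at h1
    exact h1
  have h := LinearMap.finrank_le_finrank_of_injective hE
  rw [Module.finrank_fintype_fun_eq_card, Fintype.card_subtype_compl, Fintype.card_fin,
    Fintype.card_coe] at h
  exact h

theorem setDim_bdd (S : Set (Fin l → ℝ)) :
    BddAbove {n | ∃ C ⊆ S, Convex ℝ C ∧ n = Module.finrank ℝ (vectorSpan ℝ C)} := by
  refine ⟨l, ?_⟩
  rintro _ ⟨C, _, _, rfl⟩
  have := Submodule.finrank_le (vectorSpan ℝ C)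
  rwa [Module.finrank_fintype_fun_eq_card, Fintype.card_fin] at this

/-- tight offsets -/
def Tight (g : Fin l → Y → ℝ) (f : Y → ℝ) (m : Fin l → ℝ) : Prop :=
  ∀ j, (∀ y, f y ≤ g j y + m j) ∧ ∃ y, f y = g j y + m j

theorem fibre_iff {g : Fin l → Y → ℝ} {f : Y → ℝ} {m : Fin l → ℝ} (hm : Tight g f m)
    (c : Fin l → ℝ) : c ∈ fibre g f ↔
      (∀ j, m j ≤ c j) ∧ ∀ y, ∃ j, c j = m j ∧ f y = g j y + m j := by
  constructor
  · intro hc
    have h1 : ∀ j, m j ≤ c j := by
      intro j
      obtain ⟨y, hy⟩ := (hm j).2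
      have := (hc y).1 j (mem_univ _)
      linarith
    refine ⟨h1, fun y => ?_⟩
    obtain ⟨j, _, hj⟩ := (hc y).2
    have h2 := (hm j).1 y
    have h3 := h1 j
    have : c j = m j := by linarith
    exact ⟨j, this, by rw [hj, this]⟩
  · rintro ⟨h1, h2⟩ y
    refine ⟨fun j _ => ?_, ?_⟩
    · have := (hm j).1 y
      have := h1 j
      linarith
    · obtain ⟨j, hj, hj'⟩ := h2 y
      exact ⟨j, mem_univ _, by rw [hj', hj]⟩

/-- covers -/
def Cover (g : Fin l → Y → ℝ) (f : Y → ℝ) (m : Fin l → ℝ) (J : Finset (Fin l)) : Prop :=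
  ∀ y, ∃ j ∈ J, f y = g j y + m j

theorem cover_univ {g : Fin l → Y → ℝ} {f : Y → ℝ} {m : Fin l → ℝ} (hm : Tight g f m)
    (hf : f ∈ gen g) : Cover g f m univ := by
  obtain ⟨J, c, h⟩ := hf
  intro y
  obtain ⟨j, hj, hje⟩ := (h y).2
  refine ⟨j, mem_univ _, ?_⟩
  obtain ⟨y0, hy0⟩ := (hm j).2
  have h1 := (h y0).1 j hj
  have h2 := (hm j).1 y
  have : c j = m j := by linarith
  rw [hje, this]

theorem dim_fibre {g : Fin l → Y → ℝ} {f : Y → ℝ} {m : Fin l → ℝ} (hm : Tight g f m)
    {J : Finset (Fin l)} (hJ : Cover g f m J) (hmin : ∀ J', Cover g f m J' → J.card ≤ J'.card) :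
    l - setDim (fibre g f) = J.card := by
  have hJl : J.card ≤ l := by
    have := card_le_univ J
    rwa [Fintype.card_fin] at this
  have hge : l - J.card ≤ setDim (fibre g f) := by
    set C := {c : Fin l → ℝ | (∀ j ∈ J, c j = m j) ∧ ∀ j, m j ≤ c j} with hC
    refine (finrank_ge J m).trans (le_csSup (setDim_bdd _) ⟨C, ?_, ?_, rfl⟩)
    · rintro c ⟨h1, h2⟩
      rw [fibre_iff hm]
      refine ⟨h2, fun y => ?_⟩
      obtain ⟨j, hj, hje⟩ := hJ y
      exact ⟨j, h1 j hj, hje⟩
    · rintro u ⟨hu1, hu2⟩ v ⟨hv1, hv2⟩ a b ha hb hab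
      refine ⟨fun j hj => ?_, fun j => ?_⟩
      · change a * u j + b * v j = m j
        rw [hu1 j hj, hv1 j hj, ← add_mul, hab, one_mul]
      · change m j ≤ a * u j + b * v j
        have h1 := mul_le_mul_of_nonneg_left (hu2 j) ha
        have h2 := mul_le_mul_of_nonneg_left (hv2 j) hb
        have h3 : m j = a * m j + b * m j := by rw [← add_mul, hab, one_mul]
        linarith
  have hle : setDim (fibre g f) ≤ l - J.card := by
    refine csSup_le ⟨_, ∅, Set.empty_subset _, convex_empty, rfl⟩ ?_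
    rintro n ⟨C, hCS, hconv, rfl⟩
    rcases C.eq_empty_or_nonempty with hE | hne
    · rw [hE, vectorSpan_empty, finrank_bot]
      exact Nat.zero_le _
    classical
    -- indices fixed on `C`
    let J' : Finset (Fin l) := univ.filter (fun j => ∀ c ∈ C, c j = m j)
    have hpt : ∃ c ∈ C, ∀ j, j ∉ J' → m j < c j := by
      have hind : ∀ S : Finset (Fin l), (∀ j ∈ S, j ∉ J') → ∃ c ∈ C, ∀ j ∈ S, m j < c j := by
        intro S
        induction S using Finset.induction_on with
        | empty =>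
          intro _
          obtain ⟨c, hc⟩ := hne
          exact ⟨c, hc, by simp⟩
        | insert a S ha ih =>
          intro hS
          obtain ⟨c, hc, hcS⟩ := ih (fun j hj => hS j (mem_insert_of_mem hj))
          have ha' := hS a (mem_insert_self _ _)
          simp only [J', mem_filter, mem_univ, true_and, not_forall] at ha'
          obtain ⟨c', hc', hne'⟩ := ha'
          have h1 := ((fibre_iff hm c).1 (hCS hc)).1
          have h2 := ((fibre_iff hm c').1 (hCS hc')).1
          refine ⟨(1 / 2 : ℝ) • c + (1 / 2 : ℝ) • c', hconv hc hc' (by norm_num) (by norm_num)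
            (by norm_num), fun j hj => ?_⟩
          change m j < 1 / 2 * c j + 1 / 2 * c' j
          rcases mem_insert.1 hj with rfl | hj
          · have := lt_of_le_of_ne (h2 j) (Ne.symm hne')
            linarith [h1 j]
          · linarith [hcS j hj, h2 j]
      obtain ⟨c, hc, h⟩ := hind (univ.filter (fun j => j ∉ J')) (by simp)
      exact ⟨c, hc, fun j hj => h j (by simp [hj])⟩
    obtain ⟨c, hc, hcJ⟩ := hpt
    have hcov : Cover g f m J' := by
      intro y
      obtain ⟨j, hj, hje⟩ := ((fibre_iff hm c).1 (hCS hc)).2 y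
      refine ⟨j, ?_, hje⟩
      by_contra hn
      have := hcJ j hn
      linarith
    have hsub : vectorSpan ℝ C ≤ van J' := by
      rw [vectorSpan, Submodule.span_le]
      rintro _ ⟨u, hu, v, hv, rfl⟩ j hj
      have hj' := (mem_filter.1 hj).2
      change u j - v j = 0
      rw [hj' u hu, hj' v hv, sub_self]
    have h1 := Submodule.finrank_mono hsub
    have h2 := finrank_van_le J'
    have h3 := hmin J' hcov
    omega
  omega

end Fibres

/-! ### Main theorem -/

section Main

variable {Y : Type*} [TopologicalSpace Y] [CompactSpace Y] [Nonempty Y] {l : ℕ}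

omit [CompactSpace Y] in
theorem gen_continuous {g : Fin l → Y → ℝ} (hg : ∀ j, Continuous (g j)) {f : Y → ℝ}
    (hf : f ∈ gen g) : Continuous f := by
  obtain ⟨J, c, h⟩ := hf
  have hJ : J.Nonempty := by
    obtain ⟨j, hj, _⟩ := (h (Classical.arbitrary Y)).2
    exact ⟨j, hj⟩
  have : f = fun y => J.inf' hJ (fun j => g j y + c j) := by
    funext y
    apply le_antisymm
    · exact le_inf' _ _ (fun j hj => (h y).1 j hj)
    · obtain ⟨j, hj, hje⟩ := (h y).2
      rw [hje]
      exact inf'_le _ hj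
  rw [this]
  apply Continuous.finset_inf'_apply
  intro j _
  exact (hg j).add continuous_const

theorem exists_tight {g : Fin l → Y → ℝ} (hg : ∀ j, Continuous (g j)) {f : Y → ℝ}
    (hf : Continuous f) : ∃ m, Tight g f m := by
  have : ∀ j, ∃ m : ℝ, (∀ y, f y ≤ g j y + m) ∧ ∃ y, f y = g j y + m := by
    intro j
    obtain ⟨y, _, hy⟩ := isCompact_univ.exists_isMaxOn Set.univ_nonempty
      ((hf.sub (hg j)).continuousOn (s := Set.univ))
    refine ⟨f y - g j y, fun y' => ?_, y, by ring⟩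
    have h : f y' - g j y' ≤ f y - g j y := hy (Set.mem_univ y')
    linarith
  choose m hm using this
  exact ⟨m, hm⟩

omit [TopologicalSpace Y] [CompactSpace Y] in
/-- irredundant covers give independent families -/
theorem indep_of_cover {g : Fin l → Y → ℝ} {f : Y → ℝ} {m : Fin l → ℝ} (hm : Tight g f m)
    {J : Finset (Fin l)} (hJ : Cover g f m J) (hmin : ∀ J', Cover g f m J' → J.card ≤ J'.card) :
    ∃ h : Fin J.card → Y → ℝ, (∀ i, h i ∈ gen g) ∧ ¬ TropDependent h := by
  classical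
  have hirr : ∀ j ∈ J, ∃ y, ∀ k ∈ J, k ≠ j → g j y + m j < g k y + m k := by
    intro j hj
    by_contra hc
    push Not at hc
    have hcov : Cover g f m (J.erase j) := by
      intro y
      obtain ⟨k, hk, hkj, hle⟩ := hc y
      obtain ⟨i, hi, hie⟩ := hJ y
      by_cases hij : i = j
      · refine ⟨k, mem_erase.2 ⟨hkj, hk⟩, ?_⟩
        have := (hm k).1 y
        subst hij
        linarith
      · exact ⟨i, mem_erase.2 ⟨hij, hi⟩, hie⟩
    have h1 := hmin _ hcov
    have h2 := card_erase_lt_of_mem hj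
    omega
  let e := J.equivFin
  refine ⟨fun i => g (e.symm i : Fin l), fun i => ?_, ?_⟩
  · refine ⟨{(e.symm i : Fin l)}, 0, fun y => ⟨fun j hj => ?_, ⟨_, mem_singleton_self _, ?_⟩⟩⟩
    · rw [mem_singleton] at hj; rw [hj]; simp
    · simp
  · rintro ⟨c, hc⟩
    have hne : (univ : Finset (Fin J.card)).Nonempty := by
      obtain ⟨i, _⟩ := hc (Classical.arbitrary Y)
      exact ⟨i, mem_univ _⟩
    obtain ⟨i0, _, hi0⟩ := exists_min_image univ (fun i : Fin J.card => c i - m (e.symm i)) hne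
    obtain ⟨y, hy⟩ := hirr (e.symm i0) (e.symm i0).2
    -- at `y` the minimum is attained only by `i0`
    have huniq : ∀ k, k ≠ i0 → g (e.symm i0 : Fin l) y + c i0 < g (e.symm k : Fin l) y + c k := by
      intro k hk
      have h1 := hy (e.symm k) (e.symm k).2 (fun h => hk (e.symm.injective (Subtype.ext h)))
      have h2 := hi0 k (mem_univ _)
      linarith
    obtain ⟨i, j, hij, hi, hj⟩ := hc y
    by_cases h : i = i0
    · have hj0 : j ≠ i0 := fun h' => hij (h.trans h'.symm)
      have := huniq j hj0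
      have := hj i0
      linarith
    · have := huniq i h
      have := hi i0
      linarith

omit [TopologicalSpace Y] [CompactSpace Y] [Nonempty Y] in
/-- tropical combinations of elements of `gen g` -/
theorem comb_mem_gen {g : Fin l → Y → ℝ} {r : ℕ} (f : Fin r → Y → ℝ) (hf : ∀ i, f i ∈ gen g)
    (a : Fin r → ℝ) (F : Y → ℝ) (hF : IsMinComb f univ a F) : F ∈ gen g := by
  classical
  choose J c h using hf
  -- combined coefficients
  let K : Finset (Fin l) := univ.filter (fun j => ∃ i, j ∈ J i)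
  have hc : ∀ j ∈ K, ∃ t : ℝ, (∀ i, j ∈ J i → t ≤ c i j + a i) ∧ ∃ i, j ∈ J i ∧ t = c i j + a i := by
    intro j hj
    obtain ⟨i, hi⟩ := (mem_filter.1 hj).2
    obtain ⟨i0, hi0, hmin⟩ := exists_min_image (univ.filter (fun i => j ∈ J i))
      (fun i => c i j + a i) ⟨i, by simp [hi]⟩
    exact ⟨c i0 j + a i0, fun i hi => hmin i (by simp [hi]), i0, (mem_filter.1 hi0).2, rfl⟩
  choose! t ht1 ht2 using hc
  refine ⟨K, t, fun y => ⟨fun j hj => ?_, ?_⟩⟩
  · obtain ⟨i, hi, hti⟩ := ht2 j hj
    have h1 := (hF y).1 i (mem_univ _)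
    have h2 := (h i y).1 j hi
    rw [hti]
    linarith
  · obtain ⟨i, _, hi⟩ := (hF y).2
    obtain ⟨j, hj, hje⟩ := (h i y).2
    have hjK : j ∈ K := mem_filter.2 ⟨mem_univ _, i, hj⟩
    refine ⟨j, hjK, le_antisymm ?_ ?_⟩
    · obtain ⟨i', hi', hti'⟩ := ht2 j hjK
      have h1 := (hF y).1 i' (mem_univ _)
      have h2 := (h i' y).1 j hi'
      rw [hti']
      linarith
    · have := ht1 j hjK i hj
      rw [hi, hje]
      linarith

/-- `r` independent elements give an element needing at least `r` generators -/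
theorem exists_big {g : Fin l → Y → ℝ} (hg : ∀ j, Continuous (g j)) {r : ℕ} (hr : 0 < r)
    (f : Fin r → Y → ℝ) (hf : ∀ i, f i ∈ gen g) (hind : ¬ TropDependent f) :
    ∃ F ∈ gen g, ∃ m, Tight g F m ∧ ∀ J, Cover g F m J → r ≤ J.card := by
  classical
  have : Nonempty (Fin r) := ⟨⟨0, hr⟩⟩
  -- each index is the unique minimiser somewhere
  obtain ⟨w, hw⟩ : ∃ w : Fin r → ℝ, ∀ i, ∃ y, ∀ j, j ≠ i → f i y + w i < f j y + w j := by
    rcases Nat.lt_or_ge r 2 with h2 | h2
    · refine ⟨0, fun i => ⟨Classical.arbitrary Y, fun j hj => ?_⟩⟩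
      exact absurd (Fin.ext (by omega)) hj
    · rcases alternative h2 f (fun i => gen_continuous hg (hf i)) with ⟨w, hw⟩ | h
      · exfalso
        apply hind
        refine ⟨w, fun y => ?_⟩
        obtain ⟨i, hi⟩ := Finite.exists_min (fun i => f i y + w i)
        obtain ⟨j, hj, hle⟩ := hw y i
        exact ⟨i, j, hj.symm, hi, fun k => hle.trans (hi k)⟩
      · exact h
  choose y hy using hw
  -- gap
  obtain ⟨δ, hδ, hgap⟩ : ∃ δ : ℝ, 0 < δ ∧ ∀ i j, j ≠ i → f i (y i) + w i + δ ≤ f j (y i) + w j := by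
    let S : Finset (Fin r × Fin r) := univ.filter (fun p => p.2 ≠ p.1)
    rcases S.eq_empty_or_nonempty with hS | hS
    · refine ⟨1, one_pos, fun i j hij => ?_⟩
      have : (i, j) ∈ S := by simp [S, hij]
      rw [hS] at this
      simp at this
    · obtain ⟨p, hp, hmin⟩ := exists_min_image S
        (fun p => f p.2 (y p.1) + w p.2 - (f p.1 (y p.1) + w p.1)) hS
      refine ⟨f p.2 (y p.1) + w p.2 - (f p.1 (y p.1) + w p.1), ?_, fun i j hij => ?_⟩
      · have := hy p.1 p.2 (mem_filter.1 hp).2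
        linarith
      · have := hmin (i, j) (by simp [S, hij])
        simp only at this
        linarith
  -- choose a generic shift
  let bad : Set ℝ := ⋃ p : Fin r × Fin r × Fin l, {s : ℝ | p.1 ≠ p.2.1 ∧
    (f p.1 (y p.1) + (w p.1 + s * (p.1 : ℕ))) - (f p.2.1 (y p.2.1) + (w p.2.1 + s * (p.2.1 : ℕ)))
      = g p.2.2 (y p.1) - g p.2.2 (y p.2.1)}
  have hbad : bad.Finite := by
    refine Set.finite_iUnion (fun p => ?_)
    refine Set.Subsingleton.finite ?_
    rintro s ⟨hs1, hs2⟩ s' ⟨_, hs2'⟩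
    have hne : ((p.1 : ℕ) : ℝ) - ((p.2.1 : ℕ) : ℝ) ≠ 0 := by
      intro h
      have h' : ((p.1 : ℕ) : ℝ) = ((p.2.1 : ℕ) : ℝ) := by linarith
      exact hs1 (Fin.ext (by exact_mod_cast h'))
    have : (s - s') * (((p.1 : ℕ) : ℝ) - ((p.2.1 : ℕ) : ℝ)) = 0 := by linarith
    rcases mul_eq_zero.1 this with h | h
    · linarith
    · exact absurd h hne
  obtain ⟨s, hs, hsbad⟩ : ∃ s ∈ Set.Ioo (0 : ℝ) (δ / (r + 1)), s ∉ bad := by
    have hinf : (Set.Ioo (0 : ℝ) (δ / (r + 1))).Infinite :=
      Set.Ioo_infinite (by positivity)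
    exact (hinf.sdiff hbad).nonempty.imp (fun s hs => ⟨hs.1, hs.2⟩)
  let a : Fin r → ℝ := fun i => w i + s * (i : ℕ)
  have hsr : ∀ i : Fin r, 0 ≤ s * (i : ℕ) ∧ s * (i : ℕ) < δ := by
    intro i
    have h1 : ((i : ℕ) : ℝ) < r := by exact_mod_cast i.2
    have h2 := hs.2
    rw [lt_div_iff₀ (by positivity)] at h2
    refine ⟨mul_nonneg hs.1.le (Nat.cast_nonneg _), ?_⟩
    nlinarith [hs.1]
  have huniq : ∀ i j, j ≠ i → f i (y i) + a i < f j (y i) + a j := by
    intro i j hij
    have h1 := hgap i j hij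
    have h2 := hsr i
    have h3 := hsr j
    simp only [a]
    linarith [h2.2, h3.1]
  let F : Y → ℝ := fun z => univ.inf' univ_nonempty (fun i => f i z + a i)
  have hFcomb : IsMinComb f univ a F := by
    intro z
    refine ⟨fun i _ => inf'_le _ (mem_univ i), ?_⟩
    obtain ⟨i, hi, h⟩ := exists_mem_eq_inf' (univ_nonempty (α := Fin r)) (fun i => f i z + a i)
    exact ⟨i, hi, h⟩
  have hFgen : F ∈ gen g := comb_mem_gen f hf a F hFcomb
  obtain ⟨m, hm⟩ := exists_tight hg (gen_continuous hg hFgen)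
  have hFy : ∀ i, F (y i) = f i (y i) + a i := by
    intro i
    apply le_antisymm ((hFcomb (y i)).1 i (mem_univ _))
    obtain ⟨j, _, hj⟩ := (hFcomb (y i)).2
    by_cases hij : j = i
    · rw [hj, hij]
    · have := huniq i j hij
      rw [hj]; exact this.le
  refine ⟨F, hFgen, m, hm, fun J hJ => ?_⟩
  by_contra hlt
  push Not at hlt
  choose q hq hqe using fun i => hJ (y i)
  have hcard : J.card < (univ : Finset (Fin r)).card := by rwa [card_univ, Fintype.card_fin]
  obtain ⟨i, _, i', _, hne, heq⟩ := exists_ne_map_eq_of_card_lt_of_maps_to hcard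
    (fun i _ => hq i)
  apply hsbad
  refine Set.mem_iUnion.2 ⟨(i, i', q i), hne, ?_⟩
  change (f i (y i) + a i) - (f i' (y i') + a i') = g (q i) (y i) - g (q i) (y i')
  rw [← hFy, ← hFy, hqe i, hqe i', ← heq]
  ring

/-- Tropical rank equals dimension over a compact space. -/
theorem rank_eq_dim (g : Fin l → Y → ℝ) (hg : ∀ j, Continuous (g j)) :
    IsTropRank (gen g) (dimM g) := by
  classical
  -- the dimension of the fibre in terms of covers
  have key : ∀ f ∈ gen g, ∀ m, Tight g f m → ∃ J : Finset (Fin l), Cover g f m J ∧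
      (∀ J', Cover g f m J' → J.card ≤ J'.card) ∧ l - setDim (fibre g f) = J.card := by
    intro f hf m hm
    obtain ⟨J, hJ, hmin⟩ := exists_min_image (univ.filter (fun J : Finset (Fin l) => Cover g f m J))
      Finset.card ⟨univ, by simp [cover_univ hm hf]⟩
    have hJ' : Cover g f m J := (mem_filter.1 hJ).2
    have hmin' : ∀ J', Cover g f m J' → J.card ≤ J'.card := fun J' h => hmin J' (by simp [h])
    exact ⟨J, hJ', hmin', dim_fibre hm hJ' hmin'⟩
  have hbdd : BddAbove {n | ∃ f ∈ gen g, n = l - setDim (fibre g f)} := by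
    refine ⟨l, ?_⟩
    rintro _ ⟨f, _, rfl⟩
    exact Nat.sub_le _ _
  constructor
  · -- attained
    rcases Set.eq_empty_or_nonempty {n | ∃ f ∈ gen g, n = l - setDim (fibre g f)} with hE | hne
    · have h0 : dimM g = 0 := by
        unfold dimM
        rw [hE]
        simp
      rw [h0]
      refine ⟨fun i => i.elim0, fun i => i.elim0, ?_⟩
      rintro ⟨c, hc⟩
      obtain ⟨i, _⟩ := hc (Classical.arbitrary Y)
      exact i.elim0
    · obtain ⟨f, hf, hfe⟩ := Nat.sSup_mem hne hbdd
      obtain ⟨m, hm⟩ := exists_tight hg (gen_continuous hg hf)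
      obtain ⟨J, hJ, hmin, hdim⟩ := key f hf m hm
      have : dimM g = J.card := by
        rw [← hdim]
        exact hfe
      rw [this]
      exact indep_of_cover hm hJ hmin
  · rintro r ⟨f, hf, hind⟩
    rcases Nat.eq_zero_or_pos r with hr | hr
    · rw [hr]; exact Nat.zero_le _
    · obtain ⟨F, hF, m, hm, hcov⟩ := exists_big hg hr f hf hind
      obtain ⟨J, hJ, hmin, hdim⟩ := key F hF m hm
      have h1 := hcov J hJ
      rw [← hdim] at h1
      exact h1.trans (le_csSup hbdd ⟨F, hF, rfl⟩)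

end Main

/-! ### A non-compact example -/

section Line

/-- the real line as a polyhedral subspace of `ℝ^1` -/
abbrev Line : Set (Fin 1 → ℝ) := Set.univ

/-- the generators `0` and `x` -/
def gL : Fin 2 → Line → ℝ := ![fun _ => 0, fun y => (y : Fin 1 → ℝ) 0]

theorem polyhedron_univ : IsPolyhedron (Set.univ : Set (Fin 1 → ℝ)) :=
  ⟨0, fun i => i.elim0, fun i => i.elim0, by ext x; simp⟩

theorem line_polyhedral : IsPolyhedralSubspace Line :=
  ⟨{Set.univ}, Set.finite_singleton _, by rintro _ rfl; exact polyhedron_univ, by simp⟩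

theorem gL_PL (j : Fin 2) : IsPL (gL j) := by
  fin_cases j
  · refine ⟨continuous_const, {Set.univ}, Set.finite_singleton _,
      by rintro _ rfl; exact polyhedron_univ, by simp, ?_⟩
    rintro _ rfl
    exact ⟨0, 0, fun y _ => by simp [gL]⟩
  · refine ⟨(continuous_apply 0).comp continuous_subtype_val, {Set.univ}, Set.finite_singleton _,
      by rintro _ rfl; exact polyhedron_univ, by simp, ?_⟩
    rintro _ rfl
    exact ⟨1, 0, fun y _ => by simp [gL]⟩

/-- arbitrarily large families of elements of `⟨0, x⟩` are tropically independent on `ℝ` -/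
theorem line_indep (n : ℕ) : ∃ f : Fin n → Line → ℝ, (∀ i, f i ∈ gen gL) ∧ ¬ TropDependent f := by
  refine ⟨fun i y => if (i : ℕ) = 0 then (y : Fin 1 → ℝ) 0 else ((i : ℕ) : ℝ), fun i => ?_, ?_⟩
  · by_cases hi : (i : ℕ) = 0
    · refine ⟨{1}, 0, fun y => ⟨fun j hj => ?_, 1, mem_singleton_self _, ?_⟩⟩
      · rw [mem_singleton] at hj
        subst hj
        simp [gL, hi]
      · simp [gL, hi]
    · refine ⟨{0}, fun _ => ((i : ℕ) : ℝ), fun y => ⟨fun j hj => ?_, 0, mem_singleton_self _, ?_⟩⟩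
      · rw [mem_singleton] at hj
        subst hj
        simp [gL, hi]
      · simp [gL, hi]
  · rintro ⟨c, hc⟩
    obtain ⟨i1, _⟩ := hc ⟨0, trivial⟩
    have hn : 0 < n := Nat.lt_of_le_of_lt (Nat.zero_le _) i1.2
    let x0 : ℝ := -(∑ i, |c i| + ∑ i, |c i| + 1)
    obtain ⟨i, j, hij, hi, hj⟩ := hc ⟨fun _ => x0, trivial⟩
    have habs : ∀ k, |c k| ≤ ∑ i, |c i| := fun k =>
      single_le_sum (f := fun i => |c i|) (fun i _ => abs_nonneg _) (mem_univ k)
    have hbad : ∀ k : Fin n, (k : ℕ) ≠ 0 →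
        ¬ (∀ k' : Fin n, (if (k : ℕ) = 0 then x0 else ((k : ℕ) : ℝ)) + c k ≤
          (if (k' : ℕ) = 0 then x0 else ((k' : ℕ) : ℝ)) + c k') := by
      intro k hk h
      have h1 := h ⟨0, hn⟩
      rw [if_neg hk, if_pos rfl] at h1
      have h2 := abs_le.1 (habs k)
      have h3 := abs_le.1 (habs ⟨0, hn⟩)
      have h4 : (0 : ℝ) ≤ ((k : ℕ) : ℝ) := Nat.cast_nonneg _
      simp only [x0] at h1
      linarith [h2.1, h3.2]
    by_cases h : (i : ℕ) = 0
    · have hj0 : (j : ℕ) ≠ 0 := fun h' => hij (Fin.ext (h.trans h'.symm))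
      exact hbad j hj0 hj
    · exact hbad i h hi

end Line

/-- **Answer to Q1.**  (1) For every nonempty compact polyhedral subspace `Y` of `ℝ^d` and all
piecewise linear generators, the tropical rank of the generated semimodule equals its dimension
(only compactness of `Y` and continuity of the generators are used).
(2) On the non-compact polyhedral space `Y = ℝ` the semimodule generated by `0` and `x` contains
arbitrarily many tropically independent elements, while its dimension is at most `2`. -/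
theorem result :
    (∀ (d : ℕ) (Y : Set (Fin d → ℝ)), IsPolyhedralSubspace Y → IsCompact Y → Y.Nonempty →
      ∀ (l : ℕ) (g : Fin l → Y → ℝ), (∀ j, IsPL (g j)) → IsTropRank (gen g) (dimM g)) ∧
    (∀ (d : ℕ) (Y : Set (Fin d → ℝ)), IsCompact Y → Y.Nonempty →
      ∀ (l : ℕ) (g : Fin l → Y → ℝ), (∀ j, Continuous (g j)) → IsTropRank (gen g) (dimM g)) ∧
    (IsPolyhedralSubspace Line ∧ (∀ j, IsPL (gL j)) ∧ dimM gL ≤ 2 ∧
      (∀ n : ℕ, ∃ f : Fin n → Line → ℝ, (∀ i, f i ∈ gen gL) ∧ ¬ TropDependent f) ∧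
      ∀ r, ¬ IsTropRank (gen gL) r) := by
  have h2 : ∀ (d : ℕ) (Y : Set (Fin d → ℝ)), IsCompact Y → Y.Nonempty →
      ∀ (l : ℕ) (g : Fin l → Y → ℝ), (∀ j, Continuous (g j)) → IsTropRank (gen g) (dimM g) := by
    intro d Y hY hne l g hg
    have : CompactSpace Y := isCompact_iff_compactSpace.1 hY
    have : Nonempty Y := hne.to_subtype
    exact rank_eq_dim g hg
  refine ⟨fun d Y _ hY hne l g hg => h2 d Y hY hne l g (fun j => (hg j).1), h2,
    line_polyhedral, gL_PL, ?_, line_indep, fun r hr => ?_⟩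
  · unfold dimM
    rcases Set.eq_empty_or_nonempty {n | ∃ f ∈ gen gL, n = 2 - setDim (fibre gL f)} with hE | hne
    · rw [hE]; simp
    · refine csSup_le hne ?_
      rintro _ ⟨f, _, rfl⟩
      exact Nat.sub_le _ _
  · have := hr.2 (line_indep (r + 1))
    omega

end Pool.Agent.Results.MP_8916ec_co.RankEqDim
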